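import Mathlib
import Pool.Agent.Y765.Nim.Arrays

/-!
# Which nim polynomials are 2-regular

A nim polynomial in one variable `n ↦ c₀ ⊕ c₁ ⊗ n ⊕ c₂ ⊗ n ⊗ n ⊕ ...` is a 2-regular sequence
if and only if `c_i = 0` for all `i ≥ 2`; a nim polynomial in two variables is a 2-regular array
if and only if all its terms of total degree at least two vanish. In particular no nim power
`n^{⊗ k}` with `k ≥ 2` is 2-regular, and the nim multiplication table is not 2-regular.
-/

set_option autoImplicit false

namespace Pool.Agent.Results.MP_68925f_co.NimPolynomials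

open Polynomial Finset Pool.Agent.Results.MP_68925f_co.NimSquares Pool.Agent.Y765.Nim

lemma powers (k : ℕ) (hk : 2 ≤ k) : ¬ TwoRegular (fun n => (npow nimMul n k : ℤ)) := by
  intro h
  have e : ∀ n, npoly nimMul (fun i => if i = k then 1 else 0) (k + 1) n = npow nimMul n k := by
    intro n
    apply of_inj
    rw [npoly_eq, npow_eq, Pol, eval_finsetSum, Finset.sum_eq_single k]
    · simp [of_one]
    · intro i _ hne
      simp [hne, of_zero]
    · intro hn
      exact absurd (Finset.mem_range.2 (by omega)) hn
  have h1 := (one_variable (fun i => if i = k then 1 else 0) (k + 1)).1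
    (by simpa only [e] using h) k hk (by omega)
  simp at h1

lemma table : ¬ TwoRegularArray (fun m n => (nimMul m n : ℤ)) := by
  intro h
  have e : ∀ m n, npolyTwo nimMul (fun i j => if i = 1 ∧ j = 1 then 1 else 0) 2 m n =
      nimMul m n := by
    intro m n
    apply of_inj
    rw [npolyTwo_eq]
    simp [Finset.sum_range_succ, of_one, of_zero, of_mul]
  have h1 := (two_variables (fun i j => if i = 1 ∧ j = 1 then 1 else 0) 2).1
    (by simpa only [e] using h) 1 1 le_rfl (by norm_num) (by norm_num)
  simp at h1

/-- There is exactly one operation satisfying the rules of the nim product. For it: a nim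
polynomial in one variable is a 2-regular sequence if and only if its coefficients of degree at
least two vanish; a nim polynomial in two variables is a 2-regular array if and only if its
coefficients of total degree at least two vanish; no nim power `n^{⊗ k}`, `k ≥ 2`, is 2-regular
(for `k = 2` these are the nim squares); the multiplication table is not a 2-regular array. -/
theorem result : (∃! mul : ℕ → ℕ → ℕ, IsNimProduct mul) ∧
    ∀ mul : ℕ → ℕ → ℕ, IsNimProduct mul →
      (∀ (c : ℕ → ℕ) (d : ℕ), TwoRegular (fun n => (npoly mul c d n : ℤ)) ↔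
        ∀ i, 2 ≤ i → i < d → c i = 0) ∧
      (∀ (c : ℕ → ℕ → ℕ) (d : ℕ), TwoRegularArray (fun m n => (npolyTwo mul c d m n : ℤ)) ↔
        ∀ i j, 2 ≤ i + j → i < d → j < d → c i j = 0) ∧
      (∀ k, 2 ≤ k → ¬ TwoRegular (fun n => (npow mul n k : ℤ))) ∧
      ¬ TwoRegular (fun n => (mul n n : ℤ)) ∧
      ¬ TwoRegularArray (fun m n => (mul m n : ℤ)) := by
  refine ⟨⟨nimMul, nimMul_isNimProduct, fun mul h => nim_unique h nimMul_isNimProduct⟩,
    fun mul h => ?_⟩
  have hm := nim_unique h nimMul_isNimProduct
  subst hm
  refine ⟨one_variable, two_variables, powers, ?_, table⟩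
  intro hreg
  apply powers 2 le_rfl
  have e : ∀ n, npow nimMul n 2 = nimMul n n := by
    intro n
    change nimMul (nimMul 1 n) n = nimMul n n
    rw [nimMul_one_left]
  simpa only [e] using hreg

end Pool.Agent.Results.MP_68925f_co.NimPolynomials
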